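import Pool.Agent.H404Z.Sel.Contraction

set_option autoImplicit false

namespace Pool.Agent.H369Z.Err

open Pool.Agent.H520Z.Sel
open Pool.Agent.H520Z.Sel.H404

/-- restriction of a sequence to the primes -/
noncomputable def cutP (m : ℕ → ℝ) (p : ℕ) : ℝ := if p.Prime then m p else 0

lemma cutP_zero (m : ℕ → ℝ) (p : ℕ) (hp : ¬ p.Prime) : cutP m p = 0 := by
  simp [cutP, hp]

lemma cutP_sub_le (m m' : ℕ → ℝ) (p : ℕ) : |cutP m p - cutP m' p| ≤ |m p - m' p| := by
  unfold cutP
  split_ifs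
  · exact le_rfl
  · simp

lemma cutP_le (m : ℕ → ℝ) (p : ℕ) : |cutP m p| ≤ |m p| := by
  unfold cutP
  split_ifs
  · exact le_rfl
  · simp

lemma cutP_bound {m : ℕ → ℝ} (hm : Summable fun p => |m p|) :
    Summable (fun p => |cutP m p|) ∧ ∑' p, |cutP m p| ≤ ∑' p, |m p| := by
  have h := Summable.of_nonneg_of_le (fun _ => abs_nonneg _) (cutP_le m) hm
  exact ⟨h, h.tsum_le_tsum (cutP_le m) hm⟩

theorem contraction3 (K : ℝ) (hK : 0 ≤ K) : ∃ δ : ℝ, 0 < δ ∧
    ∀ (H : Type) (ev : H → ℕ → ℝ) (κ : ℕ → ℕ → ℝ), (∀ n p : ℕ, ¬ p.Prime → κ n p = 0) →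
      (∀ n : ℕ, 1 ≤ n → Summable (fun p => |κ n p|) ∧ ∑' p, |κ n p| ≤ K) → ∑' p, |κ 1 p| ≤ δ →
      (∀ h, ∃ M : ℝ, ∀ n : ℕ, 1 ≤ n → |ev h n| ≤ M) →
      (∀ h, ∀ n : ℕ, 1 ≤ n → HasSum (fun p => κ n p * ev h p) (ev h n)) →
      ∃ u : ℕ → ℝ, (∀ p : ℕ, ¬ p.Prime → u p = 0) ∧ Summable (fun p => |u p|) ∧
        ∑' p, |u p| ≤ 1 / 12 ∧
        (∀ p : ℕ, HasSum (fun n : ℕ => (if n.Prime then 0 else ec u n) * κ n p) (-u p)) ∧
        ∀ h, HasSum (fun n => ec u n * ev h n) 0 := by
  classical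
  set ρ : ℝ := 1 / (12 * (K + 1)) with hρ
  have ρ0 : 0 < ρ := by positivity
  have ρK : ρ * (12 * (K + 1)) = 1 := by rw [hρ]; field_simp
  have ρ1 : ρ ≤ 1 / 12 := by nlinarith
  refine ⟨ρ / 2, by positivity, fun H ev r hrp hr hr1 hev hrep => ?_⟩
  let r' : ℕ → ℕ → ℝ := fun n j => if n = 0 then 0 else r n j
  have hr' : ∀ n, Summable (fun j => |r' n j|) ∧ ∑' j, |r' n j| ≤ K := by
    intro n
    by_cases h : n = 0
    · simp only [r', if_pos h, abs_zero, tsum_zero]; exact ⟨summable_zero, hK⟩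
    · simp only [r', if_neg h]; exact hr n (by omega)
  have hgs : ∀ m : ℕ → ℝ, Summable (fun j => |m j|) → ∑' j, |m j| ≤ ρ →
      Summable (fun n => |gc (cutP m) n|) ∧ ∑' n, |gc (cutP m) n| ≤ 2 * ρ * ρ := by
    intro m hm hb
    obtain ⟨a1, a2⟩ := cutP_bound hm
    have := gc_diff (u := cutP m) (u' := fun _ => 0) a1 (by simpa using summable_zero)
      (cutP_zero m) (fun _ _ => rfl) (t := ρ) (by linarith) (by simp; linarith)
    simp only [gc_zero, sub_zero] at this
    refine ⟨this.1, this.2.trans ?_⟩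
    gcongr
    linarith
  let Φ : (ℕ → ℝ) → (ℕ → ℝ) := fun m j => -r 1 j - mat r' (gc (cutP m)) j
  obtain ⟨m, hm, hmb, hfix⟩ := fixedpt ρ ρ0.le Φ (by
      intro m hm hb
      obtain ⟨g1, g2⟩ := hgs m hm hb
      obtain ⟨a1, a2⟩ := mat_bound hr' g1
      have hle : ∀ j, |Φ m j| ≤ |r 1 j| + |mat r' (gc (cutP m)) j| := fun j => by
        have := abs_sub (-r 1 j) (mat r' (gc (cutP m)) j)
        rwa [abs_neg] at this
      have s1 := (hr 1 le_rfl).1
      have s2 := Summable.of_nonneg_of_le (fun _ => abs_nonneg _) hle (s1.add a1)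
      refine ⟨s2, (s2.tsum_le_tsum hle (s1.add a1)).trans ?_⟩
      rw [s1.tsum_add a1]
      have : K * ∑' n, |gc (cutP m) n| ≤ K * (2 * ρ * ρ) := by gcongr
      nlinarith) (by
      intro m m' hm hb hm' hb'
      obtain ⟨g1, -⟩ := hgs m hm hb
      obtain ⟨g1', -⟩ := hgs m' hm' hb'
      obtain ⟨a1, a2⟩ := cutP_bound hm
      obtain ⟨a1', a2'⟩ := cutP_bound hm'
      have hd : Summable fun j => |m j - m' j| := (hm.of_abs.sub hm'.of_abs).abs
      have hd' : Summable fun j => |cutP m j - cutP m' j| := (a1.of_abs.sub a1'.of_abs).abs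
      have b2 : ∑' j, |cutP m j - cutP m' j| ≤ ∑' j, |m j - m' j| :=
        hd'.tsum_le_tsum (cutP_sub_le m m') hd
      have hdb : ∑' j, |m j - m' j| ≤ 2 * ρ := by
        refine (hd.tsum_le_tsum (fun j => abs_sub (m j) (m' j)) (hm.add hm')).trans ?_
        rw [hm.tsum_add hm']; linarith
      obtain ⟨c1, c2⟩ := gc_diff a1 a1' (cutP_zero m) (cutP_zero m') (t := 3 * ρ) (by linarith)
        (by linarith)
      obtain ⟨-, d2⟩ := mat_bound hr' c1
      have e : ∀ j, |Φ m j - Φ m' j| =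
          |mat r' (fun n => gc (cutP m) n - gc (cutP m') n) j| := fun j => by
        rw [← mat_sub hr' g1 g1', ← abs_neg]
        congr 1
        simp only [Φ]; ring
      simp_rw [e]
      have D0 : 0 ≤ ∑' j, |m j - m' j| := tsum_nonneg fun _ => abs_nonneg _
      have f1 : 2 * (3 * ρ) * ∑' p, |cutP m p - cutP m' p| ≤ 2 * (3 * ρ) * ∑' j, |m j - m' j| :=
        mul_le_mul_of_nonneg_left (by linarith) (by positivity)
      have f2 : K * ∑' n, |gc (cutP m) n - gc (cutP m') n| ≤
          K * (2 * (3 * ρ) * ∑' j, |m j - m' j|) :=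
        mul_le_mul_of_nonneg_left (by linarith) hK
      have f3 : K * (2 * (3 * ρ)) ≤ 1 / 2 := by nlinarith
      nlinarith)
  have hmp : ∀ p : ℕ, ¬ p.Prime → m p = 0 := by
    intro p hp
    have := congrFun hfix p
    rw [← this]
    have h0 : ∀ n, r' n p = 0 := fun n => by
      simp only [r']
      split_ifs
      · rfl
      · exact hrp n p hp
    simp [Φ, mat, h0, hrp 1 p hp]
  have hcut : cutP m = m := by
    ext p
    unfold cutP
    split_ifs with hp
    · rfl
    · exact (hmp p hp).symm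
  have hfx : ∀ j, -r 1 j - mat r' (gc m) j = m j := fun j => by
    have := congrFun hfix j
    simp only [Φ, hcut] at this
    exact this
  have hg := hgs m hm hmb
  rw [hcut] at hg
  refine ⟨m, hmp, hm, hmb.trans ρ1, fun p => ?_, fun h => ?_⟩
  · have s1 : HasSum (fun n => gc m n * r' n p) (mat r' (gc m) p) :=
      (mat_col hr' hg.1 p).of_abs.hasSum
    have s2 := s1.add (hasSum_ite_eq 1 (r 1 p))
    have e : -m p = mat r' (gc m) p + r 1 p := by rw [← hfx p]; ring
    rw [e]
    convert s2 using 1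
    ext n
    by_cases hn : n.Prime
    · have h1 : n ≠ 1 := hn.one_lt.ne'
      simp [hn, h1, gc]
    · rw [if_neg hn, ec_split hmp n, hmp n hn]
      by_cases h0 : n = 0
      · subst h0; simp [gc]
      · simp only [r', if_neg h0]
        split_ifs with h1
        · subst h1; ring
        · ring
  · obtain ⟨M, hM⟩ := hev h
    have M0 : 0 ≤ M := (abs_nonneg _).trans (hM 1 le_rfl)
    let e' : ℕ → ℝ := fun n => if n = 0 then 0 else ev h n
    have he' : ∀ n, |e' n| ≤ M := fun n => by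
      by_cases h0 : n = 0
      · simp only [e', if_pos h0, abs_zero]; exact M0
      · simp only [e', if_neg h0]; exact hM n (by omega)
    have hrep' : ∀ n, 1 ≤ n → HasSum (fun p => r n p * e' p) (ev h n) := fun n hn => by
      convert hrep h n hn using 1
      ext p
      by_cases h0 : p = 0
      · subst h0; simp [hrp n 0 Nat.not_prime_zero]
      · simp only [e', if_neg h0]
    obtain ⟨S1, s1, t1⟩ := mat_fubini hr' hg.1 e' e' M he' (fun n => by
      by_cases h0 : n = 0
      · simp only [r', e', if_pos h0, zero_mul]; exact hasSum_zero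
      · simp only [r', if_neg h0]
        have := hrep' n (by omega)
        simpa only [e', if_neg h0] using this)
    have t2 : Summable fun n => m n * e' n := by
      refine Summable.of_norm_bounded (hm.mul_right M) fun z => ?_
      rw [Real.norm_eq_abs, abs_mul]
      exact mul_le_mul_of_nonneg_left (he' _) (abs_nonneg _)
    have t3 := hrep' 1 le_rfl
    have hz : S1 + ev h 1 + ∑' n, m n * e' n = 0 := by
      refine ((t1.add t3).add t2.hasSum).unique ?_
      convert hasSum_zero using 1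
      ext j
      have := hfx j
      linear_combination (-e' j) * this
    rw [← hz]
    convert (s1.add (hasSum_ite_eq 1 (ev h 1))).add t2.hasSum using 1
    ext n
    rw [ec_split hmp n]
    by_cases h0 : n = 0
    · subst h0
      simp [e', gc, hmp 0 Nat.not_prime_zero]
    · simp only [e', if_neg h0]
      split_ifs with h1
      · subst h1; ring
      · ring

end Pool.Agent.H369Z.Err
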